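import Pool.Agent.TH783.HA.Triv

set_option autoImplicit false

/-!
Let `M` be a countable homogeneous relational structure whose age is closed under free amalgams, for
example the random graph, the generic `K_n`-free graphs, the generic directed graphs without a given
set of tournaments, the random `k`-uniform hypergraph. The Polish group `Aut(M)` acts continuously
on the Cantor space of the subsets of `M`. Unless all relations of `M` hold for constant tuples
only, the countable-or-perfect dichotomy for this single action is as hard as for all logic actions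
of the group of all permutations of `ℕ`; otherwise it holds.
-/

namespace Pool.Agent.Results.MP_5607ba_lc.FreeAmalgamation

/-- Relational structures on the set `T` with relations of arities `a 0, a 1, ...`. -/
abbrev Structure (a : ℕ → ℕ) (T : Type) : Type := (i : ℕ) → (Fin (a i) → T) → Bool

/-- Isomorphism of structures on `ℕ`: the orbit equivalence relation of the logic action of the
group of all permutations of `ℕ`. -/
def Iso {a : ℕ → ℕ} (x y : Structure a ℕ) : Prop :=
  ∃ σ : Equiv.Perm ℕ, ∀ (i : ℕ) (v : Fin (a i) → ℕ), y i (⇑σ ∘ v) = x i v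

/-- `σ` is an automorphism of `M`. -/
def IsAut {a : ℕ → ℕ} (M : Structure a ℕ) (σ : Equiv.Perm ℕ) : Prop :=
  ∀ (i : ℕ) (v : Fin (a i) → ℕ), M i (⇑σ ∘ v) = M i v

/-- `M` is homogeneous: every isomorphism between finite substructures of `M` extends to an
automorphism of `M`. -/
def Homogeneous {a : ℕ → ℕ} (M : Structure a ℕ) : Prop :=
  ∀ (n : ℕ) (f g : Fin n → ℕ), Function.Injective f → Function.Injective g →
    (∀ (i : ℕ) (v : Fin (a i) → Fin n), M i (f ∘ v) = M i (g ∘ v)) →
    ∃ σ : Equiv.Perm ℕ, IsAut M σ ∧ ∀ k, σ (f k) = g k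

/-- The substructure of `S` with universe `U` embeds into `M`. -/
def EmbedsOn {a : ℕ → ℕ} (M : Structure a ℕ) {n : ℕ} (S : Structure a (Fin n))
    (U : Set (Fin n)) : Prop :=
  ∃ f : Fin n → ℕ, Set.InjOn f U ∧
    ∀ (i : ℕ) (v : Fin (a i) → Fin n), (∀ j, v j ∈ U) → S i v = M i (f ∘ v)

/-- The class of the finite substructures of `M` is closed under free amalgamation: if the finite
structure `S` is the free amalgam of its substructures on `U` and `V` over the substructure on
`U ∩ V` (every tuple in a relation of `S` lies in `U` or in `V`), and these two substructures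
embed into `M`, then `S` embeds into `M`. -/
def FreeAmalgams {a : ℕ → ℕ} (M : Structure a ℕ) : Prop :=
  ∀ (n : ℕ) (S : Structure a (Fin n)) (U V : Set (Fin n)), (∀ x, x ∈ U ∨ x ∈ V) →
    (∀ (i : ℕ) (v : Fin (a i) → Fin n), S i v = true → (∀ j, v j ∈ U) ∨ ∀ j, v j ∈ V) →
    EmbedsOn M S U → EmbedsOn M S V → EmbedsOn M S Set.univ

/-- The orbit equivalence relation of the action of the automorphism group of `M` on the subsets
of `ℕ`. -/
def OrbitEq {a : ℕ → ℕ} (M : Structure a ℕ) (A B : ℕ → Bool) : Prop :=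
  ∃ σ : Equiv.Perm ℕ, IsAut M σ ∧ ∀ n, B (σ n) = A n

/-- The countable-or-perfect dichotomy for the invariant Borel sets: every such set meets countably
many classes of `E`, or there is a Borel map from the Cantor space into it which sends distinct
points to inequivalent points. -/
def Dichotomy {X : Type} [MeasurableSpace X] (E : X → X → Prop) : Prop :=
  ∀ B : Set X, MeasurableSet B → (∀ x y, E x y → (x ∈ B ↔ y ∈ B)) →
    (∃ f : ℕ → X, ∀ x ∈ B, ∃ n, E (f n) x) ∨
    (∃ f : (ℕ → Bool) → X, Measurable f ∧ (∀ c, f c ∈ B) ∧ ∀ c d, c ≠ d → ¬ E (f c) (f d))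

/-- `E` is faithfully complete: for every invariant Borel class `B` of structures (in any countable
relational language) there are an invariant Borel set `B'` and a Borel map `F` from `B'` to `B`
that induces a bijection of the `E`-classes and the isomorphism types. -/
def FaithfullyComplete {Y : Type} [MeasurableSpace Y] (E : Y → Y → Prop) : Prop :=
  ∀ (b : ℕ → ℕ) (B : Set (Structure b ℕ)), MeasurableSet B →
    (∀ x y, Iso x y → (x ∈ B ↔ y ∈ B)) →
    ∃ (B' : Set Y) (F : Y → Structure b ℕ), MeasurableSet B' ∧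
      (∀ y z, E y z → (y ∈ B' ↔ z ∈ B')) ∧ Measurable F ∧ (∀ y ∈ B', F y ∈ B) ∧
      (∀ y ∈ B', ∀ z ∈ B', E y z ↔ Iso (F y) (F z)) ∧ ∀ x ∈ B, ∃ y ∈ B', Iso x (F y)

/-- Let `M` be a countable homogeneous relational structure with free amalgamation.
(A) If some relation of `M` holds for a tuple which is not constant, then the action of `Aut(M)` on
the subsets of `M` is faithfully complete; the dichotomy for its invariant Borel sets implies the
dichotomy for all logic actions of the group of all permutations of `ℕ`, that is, Vaught's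
conjecture for all sentences of `L_ω₁ω` in all countable relational languages.
(B) Otherwise the dichotomy holds for the invariant Borel sets of this action. -/
theorem result (a : ℕ → ℕ) (M : Structure a ℕ) (hM : Homogeneous M) (hF : FreeAmalgams M) :
    ((∃ (i : ℕ) (v : Fin (a i) → ℕ), M i v = true ∧ ∃ j k, v j ≠ v k) →
      FaithfullyComplete (OrbitEq M) ∧
        (Dichotomy (OrbitEq M) → ∀ b : ℕ → ℕ, Dichotomy (Iso (a := b)))) ∧
    ((¬ ∃ (i : ℕ) (v : Fin (a i) → ℕ), M i v = true ∧ ∃ j k, v j ≠ v k) →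
      Dichotomy (OrbitEq M)) := by
  classical
  let M' : Pool.Agent.TH783.HA.St a ℕ := fun i v => M i v = true
  have hor : ∀ A B, OrbitEq M A B ↔ Pool.Agent.TH783.HA.Orb M' A B := by
    intro A B
    refine exists_congr fun σ => and_congr ?_ Iff.rfl
    exact forall_congr' fun i => forall_congr' fun v => Bool.eq_iff_iff
  have hM' : Pool.Agent.TH783.HA.Homog M' := by
    intro n f g h1 h2 h3
    obtain ⟨σ, h4, h5⟩ := hM n f g h1 h2 fun i v => Bool.eq_iff_iff.2 (h3 i v)
    exact ⟨σ, fun i v => Bool.eq_iff_iff.1 (h4 i v), h5⟩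
  have hF' : Pool.Agent.TH783.HA.FA M' := by
    intro n Q U V h1 h2 h3 h4
    have key : ∀ U : Set (Fin n), (∃ f, Pool.Agent.TH783.HA.Em M' Q U f) ↔
        EmbedsOn M (fun i v => decide (Q i v)) U := by
      intro U
      refine exists_congr fun f => and_congr Iff.rfl (forall_congr' fun i =>
        forall_congr' fun v => forall_congr' fun _ => ?_)
      rw [Bool.eq_iff_iff, decide_eq_true_iff]
      exact Iff.rfl
    rw [key] at h3 h4 ⊢
    exact hF n _ U V h1 (fun i v h5 => h2 i v (by rwa [decide_eq_true_iff] at h5)) h3 h4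
  refine ⟨fun hn => ?_, fun hn => ?_⟩
  · have hf : FaithfullyComplete (OrbitEq M) := by
      intro b B hB hinv
      obtain ⟨B', F, h1, h2, -, h4, h5, h6, h7⟩ :=
        Pool.Agent.TH783.HA.faithful_orb hM' hF' hn b B hB hinv
      exact ⟨B', F, h1, fun y z h => h2 y z ((hor y z).1 h), h4, h5,
        fun y hy z hz => (hor y z).trans (h6 y hy z hz), h7⟩
    refine ⟨hf, fun h b B hB hinv => ?_⟩
    obtain ⟨B', F, h1, h2, h4, h5, h6, h7⟩ := hf b B hB hinv
    rcases h B' h1 h2 with ⟨f, hf⟩ | ⟨g, k1, k2, k3⟩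
    · left
      refine ⟨fun n => F (f n), fun x hx => ?_⟩
      obtain ⟨y, hy, hxy⟩ := h7 x hx
      obtain ⟨n, hn⟩ := hf y hy
      have hn' : f n ∈ B' := (h2 _ _ hn).2 hy
      refine ⟨n, ?_⟩
      obtain ⟨σ, hσ⟩ := (h6 _ hn' _ hy).1 hn
      obtain ⟨τ, hτ⟩ := hxy
      refine ⟨σ.trans τ.symm, fun i v => ?_⟩
      have h8 := hτ i (⇑(σ.trans τ.symm) ∘ v)
      have h9 : ⇑τ ∘ (⇑(σ.trans τ.symm) ∘ v) = ⇑σ ∘ v := by
        funext j
        simp
      rw [h9] at h8
      rw [← h8, hσ]
    · right
      exact ⟨fun c => F (g c), h4.comp k1, fun c => h5 _ (k2 c), fun c d hcd hi =>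
        k3 c d hcd ((h6 _ (k2 c) _ (k2 d)).2 hi)⟩
  · intro B hB _
    have hn' : ∀ (i : ℕ) (v : Fin (a i) → ℕ), M' i v → ∀ j k, v j = v k := by
      intro i v hv j k
      by_contra hne
      exact hn ⟨i, v, hv, j, k, hne⟩
    rcases Pool.Agent.TH783.HA.dich_triv hn' B hB with ⟨f, h1⟩ | ⟨f, h1, h2, h3⟩
    · left
      refine ⟨f, fun x hx => ?_⟩
      obtain ⟨n, h2⟩ := h1 x hx
      exact ⟨n, (hor _ _).2 h2⟩
    · right
      exact ⟨f, h1, h2, fun c d hcd h4 => h3 c d hcd ((hor _ _).1 h4)⟩

end Pool.Agent.Results.MP_5607ba_lc.FreeAmalgamation
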