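import Pool.Agent.TH783.OT.FinO0

set_option autoImplicit false

/-!
The Polish group of the order automorphisms of `ℚ` acts continuously on the compact space of the
graphs on `ℚ`. For a class `𝒞` of finite ordered graphs, the graphs `G` on `ℚ` such that all finite
induced ordered subgraphs of `(ℚ, <, G)` belong to `𝒞` form a closed invariant set. A hereditary
class `𝒞` of finite ordered graphs has unbounded twin-width if and only if it contains one of 25
minimal classes (Bonnet, Giocanti, Ossona de Mendez, Simon, Thomassé, Toruńczyk: Twin-width IV). For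
every such class the countable-or-perfect dichotomy for the invariant Borel subsets of this set is
as hard as for all logic actions of the group of all permutations of `ℕ`.
-/

namespace Pool.Agent.Results.MP_5607ba_lc.RationalGraphs

open Pool.Agent.TH783.OT.PatO

/-- Relational structures on `ℕ` with relations of arities `a 0, a 1, ...`. -/
abbrev Str (a : ℕ → ℕ) : Type := (i : ℕ) → (Fin (a i) → ℕ) → Bool

/-- Isomorphism of structures: the orbit equivalence relation of the logic action of the group of
all permutations of `ℕ`. -/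
def Iso {a : ℕ → ℕ} (x y : Str a) : Prop :=
  ∃ σ : Equiv.Perm ℕ, ∀ (i : ℕ) (v : Fin (a i) → ℕ), y i (⇑σ ∘ v) = x i v

/-- The orbit equivalence relation of the action of the group of the order automorphisms of `ℚ` on
the binary relations on `ℚ`. -/
def OrbitEq (y z : ℚ → ℚ → Bool) : Prop := ∃ φ : ℚ ≃o ℚ, ∀ p q, z (φ p) (φ q) = y p q

/-- The graphs on `ℚ` such that all finite induced ordered subgraphs of `ℚ` with this graph belong
to `𝒞`. -/
def Locally (𝒞 : (n : ℕ) → SimpleGraph (Fin n) → Prop) (y : ℚ → ℚ → Bool) : Prop :=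
  ∃ G : SimpleGraph ℚ, (∀ p q, G.Adj p q ↔ y p q = true) ∧ Contains 𝒞 (· < ·) G

/-- The countable-or-perfect dichotomy for the invariant Borel sets of members of `K`: every such
set meets countably many classes of `E`, or there is a Borel map from the Cantor space into it which
sends distinct points to inequivalent points. -/
def Dichotomy {X : Type} [MeasurableSpace X] (E : X → X → Prop) (K : X → Prop) : Prop :=
  ∀ B : Set X, MeasurableSet B → (∀ x y, E x y → (x ∈ B ↔ y ∈ B)) → (∀ x ∈ B, K x) →
    (∃ f : ℕ → X, ∀ x ∈ B, ∃ n, E (f n) x) ∨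
    (∃ f : (ℕ → Bool) → X, Measurable f ∧ (∀ c, f c ∈ B) ∧ ∀ c d, c ≠ d → ¬ E (f c) (f d))

/-- `K` is faithfully complete: for every invariant Borel class `B` of structures (in any countable
relational language) there are an invariant Borel set `B'` of members of `K` and a Borel map `F`
from `B'` to `B` that induces a bijection of the `E`-classes and the isomorphism types. -/
def FaithfullyComplete {Y : Type} [MeasurableSpace Y] (E : Y → Y → Prop) (K : Y → Prop) : Prop :=
  ∀ (a : ℕ → ℕ) (B : Set (Str a)), MeasurableSet B → (∀ x y, Iso x y → (x ∈ B ↔ y ∈ B)) →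
    ∃ (B' : Set Y) (F : Y → Str a), MeasurableSet B' ∧ (∀ y z, E y z → (y ∈ B' ↔ z ∈ B')) ∧
      (∀ y ∈ B', K y) ∧ Measurable F ∧ (∀ y ∈ B', F y ∈ B) ∧
      (∀ y ∈ B', ∀ z ∈ B', E y z ↔ Iso (F y) (F z)) ∧ ∀ x ∈ B, ∃ y ∈ B', Iso x (F y)

/-- The set `K` of binary relations on `ℚ` is faithfully complete, and the dichotomy for the
invariant Borel sets of its members (for the action of the order automorphisms of `ℚ`) implies the
dichotomy for all logic actions of the group of all permutations of `ℕ`. -/
def AsHardAsLogicActions (K : (ℚ → ℚ → Bool) → Prop) : Prop :=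
  FaithfullyComplete OrbitEq K ∧
    (Dichotomy OrbitEq K → ∀ a : ℕ → ℕ, Dichotomy (Iso (a := a)) (fun _ => True))

/-- Let `𝒞` be a class of finite ordered graphs which contains one of the 25 minimal classes. The set
of the graphs on `ℚ` whose finite induced ordered subgraphs belong to `𝒞`, with the action of the
order automorphisms of `ℚ`, is faithfully complete; the dichotomy for its invariant Borel subsets
implies the dichotomy for all logic actions of the group of all permutations of `ℕ`, that is,
Vaught's conjecture for all sentences of `L_ω₁ω` in all countable relational languages. -/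
theorem result (𝒞 : (n : ℕ) → SimpleGraph (Fin n) → Prop) (h : HasPatterns 𝒞) :
    AsHardAsLogicActions (Locally 𝒞) := by
  have key : ∀ K : (ℚ → ℚ → Bool) → Prop, FaithfullyComplete OrbitEq K →
      AsHardAsLogicActions K := by
    intro K hf
    refine ⟨hf, fun h a B hB hinv _ => ?_⟩
    obtain ⟨B', F, h1, h2, h3, h4, h5, h6, h7⟩ := hf a B hB hinv
    rcases h B' h1 h2 h3 with ⟨f, hf⟩ | ⟨g, k1, k2, k3⟩
    · left
      refine ⟨fun n => F (f n), fun x hx => ?_⟩
      obtain ⟨y, hy, hxy⟩ := h7 x hx
      obtain ⟨n, hn⟩ := hf y hy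
      have hn' : f n ∈ B' := (h2 _ _ hn).2 hy
      refine ⟨n, ?_⟩
      obtain ⟨σ, hσ⟩ := (h6 _ hn' _ hy).1 hn
      obtain ⟨τ, hτ⟩ := hxy
      refine ⟨σ.trans τ.symm, fun i v => ?_⟩
      have h8 := hτ i (⇑(σ.trans τ.symm) ∘ v)
      have h9 : ⇑τ ∘ (⇑(σ.trans τ.symm) ∘ v) = ⇑σ ∘ v := by
        funext j
        simp
      rw [h9] at h8
      rw [← h8, hσ]
    · right
      exact ⟨fun c => F (g c), h4.comp k1, fun c => h5 _ (k2 c), fun c d hcd hi =>
        k3 c d hcd ((h6 _ (k2 c) _ (k2 d)).2 hi)⟩
  exact key _ (TH783.OT.D.faithful_RC h)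

end Pool.Agent.Results.MP_5607ba_lc.RationalGraphs
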