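import Pool.Agent.TH686.DO.Rat

set_option autoImplicit false

/-!
A single continuous action of a single Polish group for which the countable-or-perfect dichotomy
is as hard as for all logic actions of the group of all permutations of `ℕ`: the automorphism group
of `(ℚ, <)` acting by conjugation on the involutions of `ℚ` which exchange an initial segment with
its complement.
-/

namespace Pool.Agent.Results.MP_5607ba_lc.RationalInvolutions

/-- Relational structures on `ℕ` with relations of arities `a 0, a 1, ...`. -/
abbrev Str (a : ℕ → ℕ) : Type := (i : ℕ) → (Fin (a i) → ℕ) → Bool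

/-- Isomorphism of structures: the orbit equivalence relation of the logic action of the group of
all permutations of `ℕ`. -/
def Iso {a : ℕ → ℕ} (x y : Str a) : Prop :=
  ∃ σ : Equiv.Perm ℕ, ∀ (i : ℕ) (v : Fin (a i) → ℕ), y i (⇑σ ∘ v) = x i v

/-- The orbit equivalence relation of the action of the group of the order automorphisms of `ℚ` by
conjugation on the self-maps of `ℚ`. -/
def Conjugate (s t : ℚ → ℚ) : Prop := ∃ φ : ℚ ≃o ℚ, ∀ q, t (φ q) = φ (s q)

/-- `s` is an involution without fixed points which exchanges an initial segment of `ℚ` with its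
complement: if `p < s p` and `q < s q` then `p < s q`. -/
structure ExchangeInvolution (s : ℚ → ℚ) : Prop where
  involution : ∀ q, s (s q) = q
  noFixedPoint : ∀ q, s q ≠ q
  exchange : ∀ p q, p < s p → q < s q → p < s q

/-- The countable-or-perfect dichotomy for the invariant Borel sets of members of `K`: every such
set meets countably many classes of `E`, or there is a Borel map from the Cantor space into it which
sends distinct points to inequivalent points. -/
def Dichotomy {X : Type} [MeasurableSpace X] (E : X → X → Prop) (K : X → Prop) : Prop :=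
  ∀ B : Set X, MeasurableSet B → (∀ x y, E x y → (x ∈ B ↔ y ∈ B)) → (∀ x ∈ B, K x) →
    (∃ f : ℕ → X, ∀ x ∈ B, ∃ n, E (f n) x) ∨
    (∃ f : (ℕ → Bool) → X, Measurable f ∧ (∀ c, f c ∈ B) ∧ ∀ c d, c ≠ d → ¬ E (f c) (f d))

/-- `K` is faithfully complete: for every invariant Borel class `B` of structures (in any countable
relational language) there are an invariant Borel set `B'` of members of `K` and a Borel map `F`
from `B'` to `B` that induces a bijection of the `E`-classes and the isomorphism types. -/
def FaithfullyComplete {Y : Type} [MeasurableSpace Y] (E : Y → Y → Prop) (K : Y → Prop) : Prop :=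
  ∀ (a : ℕ → ℕ) (B : Set (Str a)), MeasurableSet B → (∀ x y, Iso x y → (x ∈ B ↔ y ∈ B)) →
    ∃ (B' : Set Y) (F : Y → Str a), MeasurableSet B' ∧ (∀ y z, E y z → (y ∈ B' ↔ z ∈ B')) ∧
      (∀ y ∈ B', K y) ∧ Measurable F ∧ (∀ y ∈ B', F y ∈ B) ∧
      (∀ y ∈ B', ∀ z ∈ B', E y z ↔ Iso (F y) (F z)) ∧ ∀ x ∈ B, ∃ y ∈ B', Iso x (F y)

/-- The set of these involutions, with conjugation by order automorphisms of `ℚ`, is faithfully
complete: every invariant Borel class of countable structures has the same orbit space as an
invariant Borel set of these involutions. Hence the dichotomy for the invariant Borel sets of these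
involutions implies the dichotomy for all logic actions of the group of all permutations of `ℕ`,
that is, Vaught's conjecture for all sentences of `L_ω₁ω` in all countable relational
languages. -/
theorem result :
    FaithfullyComplete Conjugate ExchangeInvolution ∧
    (Dichotomy Conjugate ExchangeInvolution →
      ∀ a : ℕ → ℕ, Dichotomy (Iso (a := a)) (fun _ => True)) := by
  have hK : TH686.DO.XI = ExchangeInvolution := by
    funext s
    exact propext ⟨fun h => ⟨h.1, h.2, h.3⟩, fun h => ⟨h.1, h.2, h.3⟩⟩
  have hf : FaithfullyComplete Conjugate ExchangeInvolution := by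
    rw [← hK]
    exact TH686.DO.faithful_XI
  refine ⟨hf, fun h a B hB hinv _ => ?_⟩
  obtain ⟨B', F, h1, h2, h3, h4, h5, h6, h7⟩ := hf a B hB hinv
  rcases h B' h1 h2 h3 with ⟨f, hf⟩ | ⟨g, k1, k2, k3⟩
  · left
    refine ⟨fun n => F (f n), fun x hx => ?_⟩
    obtain ⟨y, hy, hxy⟩ := h7 x hx
    obtain ⟨n, hn⟩ := hf y hy
    have hn' : f n ∈ B' := (h2 _ _ hn).2 hy
    refine ⟨n, ?_⟩
    obtain ⟨σ, hσ⟩ := (h6 _ hn' _ hy).1 hn
    obtain ⟨τ, hτ⟩ := hxy
    refine ⟨σ.trans τ.symm, fun i v => ?_⟩
    have h8 := hτ i (⇑(σ.trans τ.symm) ∘ v)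
    have h9 : ⇑τ ∘ (⇑(σ.trans τ.symm) ∘ v) = ⇑σ ∘ v := by
      funext j
      simp
    rw [h9] at h8
    rw [← h8, hσ]
  · right
    exact ⟨fun c => F (g c), h4.comp k1, fun c => h5 _ (k2 c), fun c d hcd hi =>
      k3 c d hcd ((h6 _ (k2 c) _ (k2 d)).2 hi)⟩

end Pool.Agent.Results.MP_5607ba_lc.RationalInvolutions
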