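import Pool.Agent.TH783.OT.EmbT

set_option autoImplicit false

/-!
The Polish group of all permutations of `ℕ` acts continuously on the compact space of the
tournaments on `ℕ`. For a class `𝒞` of finite tournaments, the tournaments all of whose finite
subtournaments belong to `𝒞` form a closed invariant set. A hereditary class of finite tournaments
has bounded twin-width (equivalently: it is dependent) if and only if it omits a member of each of
the three families `F_=`, `F_≤`, `F_≥` (Geniet, Thomassé: First order logic and twin-width in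
tournaments). For every hereditary class of *unbounded* twin-width, the countable-or-perfect
dichotomy for the invariant Borel subsets of this closed set is equivalent to the dichotomy for all
logic actions.
-/

namespace Pool.Agent.Results.MP_5607ba_lc.Tournaments

open Pool.Agent.TH783.OT.PatT

/-- Relational structures on `ℕ` with relations of arities `a 0, a 1, ...`. -/
abbrev Str (a : ℕ → ℕ) : Type := (i : ℕ) → (Fin (a i) → ℕ) → Bool

/-- Isomorphism of structures. -/
def Iso {a : ℕ → ℕ} (x y : Str a) : Prop :=
  ∃ σ : Equiv.Perm ℕ, ∀ (i : ℕ) (v : Fin (a i) → ℕ), y i (⇑σ ∘ v) = x i v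

/-- Binary relations on `ℕ`. -/
abbrev BinStr : Type := ℕ → ℕ → Bool

/-- Isomorphism of binary relations. -/
def BIso (y z : BinStr) : Prop := ∃ σ : Equiv.Perm ℕ, ∀ m n, z (σ m) (σ n) = y m n

/-- The tournaments on `ℕ` all of whose finite subtournaments belong to `𝒞`. -/
def Locally (𝒞 : (n : ℕ) → (Fin n → Fin n → Prop) → Prop) (y : BinStr) : Prop :=
  IsTournament (fun u v => y u v = true) ∧ Contains 𝒞 (fun u v => y u v = true)

/-- The countable-or-perfect dichotomy for the invariant Borel sets of members of `K`: every such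
set meets countably many classes of `E`, or there is a Borel map from the Cantor space into it which
sends distinct points to inequivalent points. -/
def Dichotomy {X : Type} [MeasurableSpace X] (E : X → X → Prop) (K : X → Prop) : Prop :=
  ∀ B : Set X, MeasurableSet B → (∀ x y, E x y → (x ∈ B ↔ y ∈ B)) → (∀ x ∈ B, K x) →
    (∃ f : ℕ → X, ∀ x ∈ B, ∃ n, E (f n) x) ∨
    (∃ f : (ℕ → Bool) → X, Measurable f ∧ (∀ c, f c ∈ B) ∧ ∀ c d, c ≠ d → ¬ E (f c) (f d))

/-- `K` is faithfully complete: for every invariant Borel class `B` of structures (in any countable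
relational language) there are an invariant Borel class `B'` of members of `K` and a Borel map `F`
from `B'` to `B` that induces a bijection of the isomorphism types. -/
def FaithfullyComplete {Y : Type} [MeasurableSpace Y] (E : Y → Y → Prop) (K : Y → Prop) : Prop :=
  ∀ (a : ℕ → ℕ) (B : Set (Str a)), MeasurableSet B → (∀ x y, Iso x y → (x ∈ B ↔ y ∈ B)) →
    ∃ (B' : Set Y) (F : Y → Str a), MeasurableSet B' ∧ (∀ y z, E y z → (y ∈ B' ↔ z ∈ B')) ∧
      (∀ y ∈ B', K y) ∧ Measurable F ∧ (∀ y ∈ B', F y ∈ B) ∧
      (∀ y ∈ B', ∀ z ∈ B', E y z ↔ Iso (F y) (F z)) ∧ ∀ x ∈ B, ∃ y ∈ B', Iso x (F y)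

/-- Let `𝒞` be a class of finite tournaments that contains all subtournaments of the tournaments
`F_=(π)`, or those of the `F_≤(π)`, or those of the `F_≥(π)` (by the theorem of Geniet and Thomassé:
any hereditary class of unbounded twin-width). The set of the tournaments on `ℕ` all of whose finite
subtournaments belong to `𝒞`, with the action of all permutations of `ℕ`, is faithfully complete;
the dichotomy for its invariant Borel subsets is equivalent to the dichotomy for all logic actions
of the group of all permutations of `ℕ`. -/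
theorem result (𝒞 : (n : ℕ) → (Fin n → Fin n → Prop) → Prop) (h : HasPatterns 𝒞) :
    FaithfullyComplete BIso (Locally 𝒞) ∧
      (Dichotomy BIso (Locally 𝒞) ↔ ∀ a : ℕ → ℕ, Dichotomy (Iso (a := a)) (fun _ => True)) := by
  have cv : ∀ {X : Type} [TopologicalSpace X] [SecondCountableTopology X] [MeasurableSpace X]
      [BorelSpace X] (E : X → X → Prop) (K : X → Prop),
      Dichotomy E K ↔ W889.VC.VCof True E K := by
    intro X _ _ _ _ E K
    constructor
    · intro h B h1 h2 h3
      rcases h B h1 h2 h3 with ⟨f, hf⟩ | ⟨g, h4, h5, h6⟩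
      · exact Or.inl ⟨f, hf⟩
      · obtain ⟨k, h7, h8⟩ := W889.VC.cont_of_meas h4
        refine Or.inr ⟨fun c => g (k c), fun _ => h8, fun c => h5 _, fun c d hcd => h7 ?_⟩
        by_contra hne
        exact h6 _ _ hne hcd
    · intro h B h1 h2 h3
      rcases h B h1 h2 h3 with ⟨f, hf⟩ | ⟨g, h4, h5, h6⟩
      · exact Or.inl ⟨f, hf⟩
      · exact Or.inr ⟨g, (h4 trivial).measurable, h5, fun c d hcd h7 => hcd (h6 c d h7)⟩
  have hf : W889.VC.Faithful W889.VC.BIso (Locally 𝒞) := TH783.OT.To.faithful_C h
  refine ⟨hf, ?_, ?_⟩
  · intro h1 a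
    rw [cv] at h1 ⊢
    exact hf.vaught True h1 a
  · intro h1
    rw [cv]
    exact W889.VC.back_bin True (fun a => (cv _ _).1 (h1 a)) _

end Pool.Agent.Results.MP_5607ba_lc.Tournaments
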